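import Mathlib

set_option autoImplicit false

namespace Pool.Agent.H75.Kus

open Finset

theorem ab_zero (a b : ℝ) (h1 : |a + b| = |a| + |b|) (h2 : |a - b| = |a| + |b|) : a * b = 0 := by
  have h3 : |a + b| ^ 2 = |a - b| ^ 2 := by rw [h1, h2]
  rw [sq_abs, sq_abs] at h3
  nlinarith

/-- A linear map preserving the `ℓ₁` norm of `ℝ^d` is a signed coordinate permutation. -/
theorem linear_l1 {d : ℕ} (L : (Fin d → ℝ) →ₗ[ℝ] (Fin d → ℝ))
    (hL : ∀ x, ∑ i, |L x i| = ∑ i, |x i|) :
    ∃ (σ : Equiv.Perm (Fin d)) (ε : Fin d → ℤˣ), ∀ x i, L x i = (((ε i : ℤˣ) : ℤ) : ℝ) * x (σ i) := by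
  classical
  set v : Fin d → (Fin d → ℝ) := fun j => L (Pi.single j 1) with hv
  have hnorm : ∀ j, ∑ i, |v j i| = 1 := by
    intro j
    rw [hv]
    simp only [hL]
    rw [Finset.sum_eq_single j]
    · simp
    · intro b _ hb
      simp [Pi.single_eq_of_ne hb]
    · simp
  have hadd : ∀ j k, j ≠ k → ∀ s : ℝ, |s| = 1 → ∑ i, |v j i + s * v k i| = 2 := by
    intro j k hjk s hs
    have h1 : ∀ i, v j i + s * v k i = L (Pi.single j 1 + s • Pi.single k 1) i := by
      intro i
      simp [hv]
    simp only [h1, hL]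
    rw [← Finset.add_sum_erase _ _ (Finset.mem_univ j),
      ← Finset.add_sum_erase _ _ (Finset.mem_erase.2 ⟨hjk.symm, Finset.mem_univ k⟩)]
    rw [Finset.sum_eq_zero]
    · have e1 : (Pi.single k (1 : ℝ) : Fin d → ℝ) j = 0 := Pi.single_eq_of_ne hjk _
      have e2 : (Pi.single j (1 : ℝ) : Fin d → ℝ) k = 0 := Pi.single_eq_of_ne hjk.symm _
      simp only [Pi.add_apply, Pi.smul_apply, smul_eq_mul, Pi.single_eq_same, e1, e2]
      rw [mul_zero, mul_one, add_zero, zero_add, hs]
      norm_num
    · intro i hi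
      rw [Finset.mem_erase, Finset.mem_erase] at hi
      have e1 : (Pi.single k (1 : ℝ) : Fin d → ℝ) i = 0 := Pi.single_eq_of_ne hi.1 _
      have e2 : (Pi.single j (1 : ℝ) : Fin d → ℝ) i = 0 := Pi.single_eq_of_ne hi.2.1 _
      simp [e1, e2]
  have hpt : ∀ j k, j ≠ k → ∀ s : ℝ, |s| = 1 → ∀ i, |v j i + s * v k i| = |v j i| + |v k i| := by
    intro j k hjk s hs
    have hle : ∀ i ∈ (Finset.univ : Finset (Fin d)),
        |v j i + s * v k i| ≤ |v j i| + |v k i| := by
      intro i _
      refine (abs_add_le _ _).trans ?_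
      rw [abs_mul, hs, one_mul]
    have hsum : ∑ i, |v j i + s * v k i| = ∑ i, (|v j i| + |v k i|) := by
      rw [hadd j k hjk s hs, Finset.sum_add_distrib, hnorm, hnorm]
      norm_num
    intro i
    exact (Finset.sum_eq_sum_iff_of_le hle).1 hsum i (Finset.mem_univ i)
  have hdis : ∀ j k, j ≠ k → ∀ i, v j i * v k i = 0 := by
    intro j k hjk i
    have h1 := hpt j k hjk 1 (by norm_num) i
    have h2 := hpt j k hjk (-1) (by norm_num) i
    rw [one_mul] at h1
    rw [neg_one_mul, ← sub_eq_add_neg] at h2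
    exact ab_zero _ _ h1 h2
  have hex : ∀ j, ∃ i, v j i ≠ 0 := by
    intro j
    by_contra hcon
    push Not at hcon
    have := hnorm j
    simp [hcon] at this
  choose τ hτ using hex
  have hinj : Function.Injective τ := by
    intro j k hjk
    by_contra hne
    have h1 := hdis j k hne (τ j)
    rcases mul_eq_zero.1 h1 with h | h
    · exact hτ j h
    · rw [hjk] at h
      exact hτ k h
  have hbij : Function.Bijective τ := Finite.injective_iff_bijective.1 hinj
  let T : Equiv.Perm (Fin d) := Equiv.ofBijective τ hbij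
  have hTz : ∀ j i, T j ≠ i → v j i = 0 := by
    intro j i hji
    obtain ⟨k, rfl⟩ := T.surjective i
    have hjk : j ≠ k := fun h => hji (by rw [h])
    have h1 := hdis j k hjk (T k)
    rcases mul_eq_zero.1 h1 with h | h
    · exact h
    · exact absurd h (hτ k)
  have habs : ∀ j, |v j (T j)| = 1 := by
    intro j
    have h1 := hnorm j
    rw [Finset.sum_eq_single (T j)] at h1
    · exact h1
    · intro i _ hi
      rw [hTz j i hi.symm, abs_zero]
    · intro h
      exact absurd (Finset.mem_univ _) h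
  refine ⟨T.symm, fun i => if 0 < v (T.symm i) i then 1 else -1, fun x i => ?_⟩
  have hx : L x i = ∑ j, x j * v j i := by
    have h1 : x = ∑ j, x j • (Pi.single j (1 : ℝ) : Fin d → ℝ) := by
      funext i
      simp [Finset.sum_apply, Pi.single_apply]
    conv_lhs => rw [h1]
    rw [map_sum]
    simp [hv, Finset.sum_apply]
  rw [hx, Finset.sum_eq_single (T.symm i)]
  · have h2 := habs (T.symm i)
    rw [Equiv.apply_symm_apply] at h2
    rw [mul_comm]
    congr 1
    show v (T.symm i) i = (((if 0 < v (T.symm i) i then (1 : ℤˣ) else -1 : ℤˣ) : ℤ) : ℝ)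
    by_cases h : 0 < v (T.symm i) i
    · rw [if_pos h]
      rw [abs_of_pos h] at h2
      simp [h2]
    · rw [if_neg h]
      push Not at h
      rw [abs_of_nonpos h] at h2
      push_cast
      linarith
  · intro j _ hj
    rw [hTz j i (fun h => hj (by rw [← h, Equiv.symm_apply_apply])), mul_zero]
  · intro h
    exact absurd (Finset.mem_univ _) h

/-- A bijective `ℓ₁` isometry of `ℝ^d` is a signed coordinate permutation composed with a
translation. -/
theorem iso_l1 {d : ℕ} (g : Equiv.Perm (Fin d → ℝ))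
    (hg : ∀ x y, ∑ i, |g x i - g y i| = ∑ i, |x i - y i|) :
    ∃ (σ : Equiv.Perm (Fin d)) (ε : Fin d → ℤˣ) (t : Fin d → ℝ),
      ∀ x i, g x i = (((ε i : ℤˣ) : ℤ) : ℝ) * x (σ i) + t i := by
  let e : PiLp 1 (fun _ : Fin d => ℝ) ≃ (Fin d → ℝ) := WithLp.equiv 1 (Fin d → ℝ)
  let f : PiLp 1 (fun _ : Fin d => ℝ) ≃ᵢ PiLp 1 (fun _ : Fin d => ℝ) :=
    { toEquiv := e.trans (g.trans e.symm)
      isometry_toFun := by
        refine Isometry.of_dist_eq fun x y => ?_
        rw [PiLp.dist_eq_of_L1, PiLp.dist_eq_of_L1]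
        exact hg (e x) (e y) }
  have hf : ∀ x : Fin d → ℝ, f (e.symm x) = e.symm (g x) := fun x => rfl
  let L0 := f.toRealLinearIsometryEquiv
  let L : (Fin d → ℝ) →ₗ[ℝ] (Fin d → ℝ) :=
    { toFun := fun x => e (L0 (e.symm x))
      map_add' := fun x y => by
        have : e.symm (x + y) = e.symm x + e.symm y := rfl
        rw [this, map_add]
        rfl
      map_smul' := fun c x => by
        have : e.symm (c • x) = c • e.symm x := rfl
        rw [this, map_smul]
        rfl }
  have hLx : ∀ x, L x = g x - g 0 := by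
    intro x
    show e (L0 (e.symm x)) = _
    have : L0 (e.symm x) = f (e.symm x) - f 0 := IsometryEquiv.toRealLinearIsometryEquiv_apply f _
    rw [this]
    rfl
  obtain ⟨σ, ε, h⟩ := linear_l1 L (by
    intro x
    rw [hLx]
    have := hg x 0
    simpa using this)
  refine ⟨σ, ε, g 0, fun x i => ?_⟩
  rw [← h x i, hLx]
  simp

end Pool.Agent.H75.Kus
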