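import Pool.Agent.H75.Kus.Kernel

/-!
# Checking kernel certificates by computation
-/

set_option autoImplicit false

namespace Pool.Agent.H75.Kus

open Finset

/-- Sum of `f 0, ..., f (n - 1)`. -/
def sumTo (f : ℕ → ℤ) : ℕ → ℤ
  | 0 => 0
  | n + 1 => sumTo f n + f n

theorem sumTo_eq (f : ℕ → ℤ) (n : ℕ) : sumTo f n = ∑ k : Fin n, f k.val := by
  induction n with
  | zero => simp [sumTo]
  | succ n ih => rw [sumTo, ih, Fin.sum_univ_castSucc]; simp

/-- Matrix entry from a table. -/
def entry (T : List (List ℤ)) (a b : ℕ) : ℤ := (T.getD a []).getD b 0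

/-- Cut value (unordered pairs) of the subset given by the bits of `m`. -/
def cutM (T : List (List ℤ)) (N m : ℕ) : ℤ :=
  sumTo (fun b => sumTo (fun a => if m.testBit a == m.testBit b then 0 else entry T a b) b) N

/-- Number of bits. -/
def pop (N m : ℕ) : ℤ := sumTo (fun a => if m.testBit a then 1 else 0) N

/-- Run through all masks. -/
def allMasks (P : ℕ → Bool) : ℕ → ℕ → Bool
  | 0, acc => P acc
  | k + 1, acc => allMasks P k (2 * acc) && allMasks P k (2 * acc + 1)

theorem allMasks_spec (P : ℕ → Bool) : ∀ k acc, allMasks P k acc = true →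
    ∀ r, r < 2 ^ k → P (acc * 2 ^ k + r) = true := by
  intro k
  induction k with
  | zero =>
    intro acc h r hr
    have : r = 0 := by simpa using hr
    subst this
    simpa [allMasks] using h
  | succ k ih =>
    intro acc h r hr
    rw [allMasks, Bool.and_eq_true] at h
    by_cases hk : r < 2 ^ k
    · have := ih _ h.1 r hk
      rwa [show acc * 2 ^ (k + 1) + r = 2 * acc * 2 ^ k + r by ring]
    · have hr' : r - 2 ^ k < 2 ^ k := by rw [pow_succ] at hr; omega
      have := ih _ h.2 (r - 2 ^ k) hr'
      rwa [show acc * 2 ^ (k + 1) + r = (2 * acc + 1) * 2 ^ k + (r - 2 ^ k) by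
        have : r = 2 ^ k + (r - 2 ^ k) := by omega
        rw [this]
        ring_nf
        omega]

/-- The complete certificate check for `N = n + 1` points in dimension `d`: `T` is the table of the
kernel (entries `a < b` are used), `Z` the list of lower bounds for the cuts by size. -/
def check (T : List (List ℤ)) (Z : List ℤ) (n d : ℕ) : Bool :=
  allMasks (fun m => decide (Z.getD (pop (n + 1) m).toNat 0 ≤ cutM T (n + 1) m)) (n + 1) 0 &&
  ((List.range n).all fun t => decide (0 ≤ cutM T (n + 1) (2 ^ (t + 1) - 1) +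
    ((d : ℤ) - 1) * Z.getD (t + 1) 0)) &&
  decide (sumTo (fun b => sumTo (fun a => entry T a b) b) (n + 1) < 0)

/-- The symmetric kernel given by a table. -/
def ker (T : List (List ℤ)) (n : ℕ) (k l : Fin (n + 1)) : ℤ :=
  if k < l then entry T k.val l.val else if l < k then entry T l.val k.val else 0

theorem ker_symm (T : List (List ℤ)) (n : ℕ) (k l : Fin (n + 1)) : ker T n k l = ker T n l k := by
  unfold ker
  rcases lt_trichotomy k l with h | h | h
  · rw [if_pos h, if_neg (not_lt.mpr h.le), if_pos h]
  · subst h; rfl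
  · rw [if_neg (not_lt.mpr h.le), if_pos h, if_pos h]

/-- A symmetric double sum with vanishing diagonal. -/
theorem double_sum {n : ℕ} (F : Fin n → Fin n → ℤ) (hs : ∀ k l, F k l = F l k)
    (h0 : ∀ k, F k k = 0) : ∑ k, ∑ l, F k l = 2 * ∑ l, ∑ k, if k < l then F k l else 0 := by
  have h1 : ∀ k l, F k l = (if k < l then F k l else 0) + (if l < k then F l k else 0) := by
    intro k l
    rcases lt_trichotomy k l with h | h | h
    · rw [if_pos h, if_neg (not_lt.mpr h.le), add_zero]
    · subst h; simp [h0]
    · rw [if_neg (not_lt.mpr h.le), if_pos h, zero_add, hs]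
  calc ∑ k, ∑ l, F k l = ∑ k, ∑ l, ((if k < l then F k l else 0) + (if l < k then F l k else 0)) :=
        sum_congr rfl fun k _ => sum_congr rfl fun l _ => h1 k l
    _ = ∑ k, ∑ l, (if k < l then F k l else 0) + ∑ k, ∑ l, (if l < k then F l k else 0) := by
        simp only [sum_add_distrib]
    _ = 2 * ∑ l, ∑ k, if k < l then F k l else 0 := by
        rw [sum_comm (f := fun k l => if k < l then F k l else 0)]
        ring

/-- Sum over the positions below `l`. -/
theorem sum_below {n : ℕ} (g : ℕ → ℤ) (l : Fin n) :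
    (∑ k : Fin n, if k < l then g k.val else 0) = sumTo g l.val := by
  have h1 : (∑ k : Fin n, if k < l then g k.val else 0) =
      ∑ a ∈ range n, if a < l.val then g a else 0 := by
    rw [← Fin.sum_univ_eq_sum_range (fun a => if a < l.val then g a else 0) n]
    rfl
  have h2 : (range n).filter (fun a => a < l.val) = range l.val := by
    ext a
    simp only [mem_filter, mem_range]
    exact ⟨fun h => h.2, fun h => ⟨h.trans l.isLt, h⟩⟩
  rw [h1, ← sum_filter, h2, sumTo_eq, Fin.sum_univ_eq_sum_range g]

theorem cut_ker (T : List (List ℤ)) (n : ℕ) (p : Fin (n + 1) → Bool) (m : ℕ)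
    (hm : ∀ k : Fin (n + 1), m.testBit k.val = p k) :
    cut (ker T n) p = 2 * cutM T (n + 1) m := by
  unfold cut
  rw [double_sum]
  · congr 1
    unfold cutM
    rw [sumTo_eq]
    refine sum_congr rfl fun l _ => ?_
    rw [← sum_below]
    refine sum_congr rfl fun k _ => ?_
    by_cases h : k < l
    · rw [if_pos h, if_pos h, hm k, hm l]
      by_cases h2 : p k = p l
      · simp [h2]
      · rw [if_neg h2, if_neg (by simpa using h2)]
        unfold ker
        rw [if_pos h]
    · rw [if_neg h, if_neg h]
  · intro k l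
    by_cases h2 : p k = p l
    · rw [if_pos h2, if_pos h2.symm]
    · rw [if_neg h2, if_neg (fun h => h2 h.symm), ker_symm]
  · intro k
    simp

theorem total_ker (T : List (List ℤ)) (n : ℕ) :
    ∑ k, ∑ l, (if k = l then 0 else ker T n k l) =
      2 * sumTo (fun b => sumTo (fun a => entry T a b) b) (n + 1) := by
  rw [double_sum]
  · congr 1
    rw [sumTo_eq]
    refine sum_congr rfl fun l _ => ?_
    rw [← sum_below]
    refine sum_congr rfl fun k _ => ?_
    by_cases h : k < l
    · rw [if_pos h, if_pos h, if_neg h.ne]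
      unfold ker
      rw [if_pos h]
    · rw [if_neg h, if_neg h]
  · intro k l
    by_cases h2 : k = l
    · rw [if_pos h2, if_pos h2.symm]
    · rw [if_neg h2, if_neg (fun h => h2 h.symm), ker_symm]
  · intro k
    simp

theorem side_pop (n : ℕ) (p : Fin (n + 1) → Bool) (m : ℕ)
    (hm : ∀ k : Fin (n + 1), m.testBit k.val = p k) : (side p : ℤ) = pop (n + 1) m := by
  unfold side pop
  rw [card_filter, sumTo_eq]
  push_cast
  refine sum_congr rfl fun k _ => ?_
  rw [hm k]

/-- Soundness of the certificate check. -/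
theorem check_sound (T : List (List ℤ)) (Z : List ℤ) (n d : ℕ) (hd : 0 < d)
    (h : check T Z n d = true) (x : Fin (n + 1) → Fin d → ℝ)
    (hx : ∀ a b, a ≠ b → ∑ i, |x a i - x b i| = 2) : False := by
  unfold check at h
  rw [Bool.and_eq_true, Bool.and_eq_true] at h
  obtain ⟨⟨h1, h2⟩, h3⟩ := h
  refine kernel_bound (ker T n) (fun m => 2 * Z.getD m 0) ?_ ?_ ?_ hd x hx
  · intro p
    set m := Nat.ofBits p with hm
    have hlt : m < 2 ^ (n + 1) := Nat.ofBits_lt_two_pow p
    have hbit : ∀ k : Fin (n + 1), m.testBit k.val = p k := fun k =>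
      Nat.testBit_ofBits_lt p k.val k.isLt
    have h4 := allMasks_spec _ _ _ h1 m hlt
    rw [zero_mul, zero_add, decide_eq_true_eq] at h4
    rw [cut_ker T n p m hbit]
    have h5 := side_pop n p m hbit
    rw [← h5, Int.toNat_natCast] at h4
    linarith
  · intro t
    rw [List.all_eq_true] at h2
    have h4 := h2 t.val (List.mem_range.mpr t.isLt)
    rw [decide_eq_true_eq] at h4
    rw [cut_ker T n (initial t.val) (2 ^ (t.val + 1) - 1) (fun k => by
      rw [Nat.testBit_two_pow_sub_one]
      unfold initial
      simp only [Nat.lt_succ_iff])]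
    linarith
  · rw [total_ker]
    have := of_decide_eq_true h3
    linarith

end Pool.Agent.H75.Kus
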