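import Mathlib

/-!
# Position kernels and equilateral sets in `ℓ₁`

A kernel `c` on the positions `0, ..., n` is transported to a point set along the order of the points
in each of the `d` coordinates.  If every cut of the kernel is at least `z m` (`m` the size of one
side) and the initial cuts compensate `d - 1` times the worst cut of the same size, then the sum of
all transported kernels pairs nonnegatively with every `ℓ₁` distance; a negative total sum of `c`
then excludes equilateral sets of `n + 1` points in `ℝ^d`.
-/

set_option autoImplicit false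

namespace Pool.Agent.H75.Kus

open Finset

variable {n d : ℕ}

/-- The number of positions on the side `true` of a bipartition. -/
def side (p : Fin n → Bool) : ℕ := (univ.filter fun k => p k = true).card

/-- The cut value of a bipartition (ordered pairs). -/
def cut (c : Fin n → Fin n → ℤ) (p : Fin n → Bool) : ℤ :=
  ∑ k, ∑ l, if p k = p l then 0 else c k l

/-- The bipartition into the positions `≤ t` and the others. -/
def initial (t : ℕ) (k : Fin n) : Bool := decide (k.val ≤ t)

/-- For a monotone family the distance of two members is the sum of the gaps separating them. -/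
theorem abs_sub_eq_gaps (y : Fin (n + 1) → ℝ) (hy : Monotone y) (k l : Fin (n + 1)) :
    |y k - y l| = ∑ t : Fin n, if initial t.val k = initial t.val l then 0 else
      (y t.succ - y t.castSucc) := by
  wlog hkl : k ≤ l with H
  · rw [abs_sub_comm, H y hy l k (le_of_not_ge hkl)]
    refine sum_congr rfl fun t _ => ?_
    by_cases h : initial t.val l = initial t.val k
    · rw [if_pos h, if_pos h.symm]
    · rw [if_neg h, if_neg (fun h' => h h'.symm)]
  · rw [abs_sub_comm, abs_of_nonneg (sub_nonneg.mpr (hy hkl))]
    set Y : ℕ → ℝ := fun m => if h : m < n + 1 then y ⟨m, h⟩ else 0 with hY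
    have hYv : ∀ a : Fin (n + 1), Y a.val = y a := fun a => by
      simp only [hY, a.isLt, dif_pos]
    have h1 : (∑ t : Fin n, if initial t.val k = initial t.val l then 0 else
        (y t.succ - y t.castSucc)) =
        ∑ t ∈ range n, if decide (k.val ≤ t) = decide (l.val ≤ t) then 0 else (Y (t + 1) - Y t) := by
      rw [← Fin.sum_univ_eq_sum_range
        (fun t => if decide (k.val ≤ t) = decide (l.val ≤ t) then (0 : ℝ) else (Y (t + 1) - Y t)) n]
      refine sum_congr rfl fun t _ => ?_
      have e1 : y t.succ = Y (t.val + 1) := by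
        have := hYv t.succ
        simpa using this.symm
      have e2 : y t.castSucc = Y t.val := by
        have := hYv t.castSucc
        simpa using this.symm
      rw [e1, e2]
      rfl
    have h3 : ∀ t : ℕ, (if decide (k.val ≤ t) = decide (l.val ≤ t) then (0 : ℝ) else
        (Y (t + 1) - Y t)) = if ¬ (decide (k.val ≤ t) = decide (l.val ≤ t)) then
        (Y (t + 1) - Y t) else 0 := fun t => by rw [ite_not]
    rw [h1, sum_congr rfl (fun t _ => h3 t), ← sum_filter]
    have h2 : (range n).filter (fun t => ¬ (decide (k.val ≤ t) = decide (l.val ≤ t))) =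
        Ico k.val l.val := by
      ext t
      have hl : l.val ≤ n := Nat.lt_succ_iff.mp l.isLt
      have hkl' : k.val ≤ l.val := hkl
      simp only [mem_filter, mem_range, mem_Ico, decide_eq_decide]
      constructor
      · rintro ⟨ht, h⟩
        by_cases hk : k.val ≤ t
        · refine ⟨hk, ?_⟩
          by_contra hlt
          exact h ⟨fun _ => not_lt.mp hlt, fun _ => hk⟩
        · exfalso
          exact h ⟨fun h' => absurd h' hk, fun h' => absurd (hkl'.trans h') hk⟩
      · rintro ⟨hk, hlt⟩
        refine ⟨by omega, fun h => ?_⟩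
        have := h.mp hk
        omega
    rw [h2, sum_Ico_sub Y (show k.val ≤ l.val from hkl), hYv, hYv]

/-- The transported kernel pairs with a coordinate distance as a nonnegative combination of cuts. -/
theorem pair_eq (c : Fin (n + 1) → Fin (n + 1) → ℤ) (y : Fin (n + 1) → ℝ) (hy : Monotone y)
    (π : Equiv.Perm (Fin (n + 1))) :
    ∑ k, ∑ l, (c (π k) (π l) : ℝ) * |y k - y l| =
      ∑ t : Fin n, (y t.succ - y t.castSucc) *
        (cut c (fun k => initial t.val (π.symm k)) : ℝ) := by
  have h1 : ∀ t : Fin n, (cut c (fun k => initial t.val (π.symm k)) : ℝ) =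
      ∑ k, ∑ l, if initial t.val k = initial t.val l then (0 : ℝ) else (c (π k) (π l) : ℝ) := by
    intro t
    unfold cut
    push_cast
    rw [← Equiv.sum_comp π]
    refine sum_congr rfl fun k _ => ?_
    rw [← Equiv.sum_comp π]
    refine sum_congr rfl fun l _ => ?_
    simp only [Equiv.symm_apply_apply]
  simp_rw [h1, abs_sub_eq_gaps y hy, mul_sum]
  rw [sum_congr rfl (fun k _ => sum_comm), sum_comm]
  refine sum_congr rfl fun t _ => sum_congr rfl fun k _ => sum_congr rfl fun l _ => ?_
  by_cases h : initial t.val k = initial t.val l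
  · simp [h]
  · simp only [if_neg h]
    ring

/-- The side of an initial bipartition transported by a permutation has `t + 1` elements. -/
theorem side_initial (π : Equiv.Perm (Fin (n + 1))) (t : Fin n) :
    side (fun k => initial t.val (π.symm k)) = t.val + 1 := by
  unfold side
  have h1 : (univ.filter fun k : Fin (n + 1) => initial t.val (π.symm k) = true) =
      (Finset.Iic t.castSucc).map π.toEmbedding := by
    ext k
    simp only [initial, mem_filter, mem_univ, true_and, decide_eq_true_eq, mem_map_equiv, mem_Iic,
      Fin.le_def, Fin.val_castSucc]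
  rw [h1, card_map, Fin.card_Iic]
  rfl

/-- **Kernel bound.**  If the cuts of `c` are at least `z`, the initial cuts compensate `d - 1`
times `z`, and the total sum of `c` is negative, then there is no `ℓ₁`-equilateral set with `n + 1`
points in `ℝ^d`. -/
theorem kernel_bound (c : Fin (n + 1) → Fin (n + 1) → ℤ) (z : ℕ → ℤ)
    (hcut : ∀ p : Fin (n + 1) → Bool, z (side p) ≤ cut c p)
    (hinit : ∀ t : Fin n, 0 ≤ cut c (initial t.val) + ((d : ℤ) - 1) * z (t.val + 1))
    (hneg : ∑ k, ∑ l, (if k = l then 0 else c k l) < 0) (hd : 0 < d)
    (x : Fin (n + 1) → Fin d → ℝ) (hx : ∀ a b, a ≠ b → ∑ i, |x a i - x b i| = 2) : False := by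
  classical
  set σ : Fin d → Equiv.Perm (Fin (n + 1)) := fun i => Tuple.sort (fun a => x a i) with hσ
  set y : Fin d → Fin (n + 1) → ℝ := fun i k => x (σ i k) i with hy
  have hmono : ∀ i, Monotone (y i) := fun i => Tuple.monotone_sort (fun a => x a i)
  set Tot : ℝ := ∑ j, ∑ a, ∑ b, (c ((σ j).symm a) ((σ j).symm b) : ℝ) *
    ∑ i, |x a i - x b i| with hTot
  -- evaluation by equilaterality
  have h1 : Tot = d * (2 * ((∑ k, ∑ l, (if k = l then 0 else c k l) : ℤ) : ℝ)) := by
    rw [hTot]
    have : ∀ j : Fin d, (∑ a, ∑ b, (c ((σ j).symm a) ((σ j).symm b) : ℝ) *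
        ∑ i, |x a i - x b i|) = 2 * ((∑ k, ∑ l, (if k = l then 0 else c k l) : ℤ) : ℝ) := by
      intro j
      push_cast
      rw [← Equiv.sum_comp (σ j), mul_sum]
      refine sum_congr rfl fun k _ => ?_
      rw [← Equiv.sum_comp (σ j), mul_sum]
      refine sum_congr rfl fun l _ => ?_
      rw [Equiv.symm_apply_apply, Equiv.symm_apply_apply]
      by_cases hkl : k = l
      · subst hkl
        simp
      · rw [hx _ _ (fun h => hkl ((σ j).injective h)), if_neg hkl]
        ring
    rw [sum_congr rfl (fun j _ => this j), sum_const, card_univ, Fintype.card_fin, nsmul_eq_mul]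
  -- evaluation by cuts
  have h2 : Tot = ∑ i, ∑ t : Fin n, (y i t.succ - y i t.castSucc) *
      ((∑ j, cut c (fun k => initial t.val ((((σ i).trans (σ j).symm)).symm k)) : ℤ) : ℝ) := by
    have e1 : Tot = ∑ i, ∑ j, ∑ a, ∑ b, (c ((σ j).symm a) ((σ j).symm b) : ℝ) *
        |x a i - x b i| := by
      rw [hTot]
      simp_rw [mul_sum]
      rw [sum_congr rfl (fun j _ => sum_congr rfl (fun a _ => sum_comm)),
        sum_congr rfl (fun j _ => sum_comm), sum_comm]
    rw [e1]
    refine sum_congr rfl fun i _ => ?_
    have e2 : ∀ j, (∑ a, ∑ b, (c ((σ j).symm a) ((σ j).symm b) : ℝ) * |x a i - x b i|) =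
        ∑ t : Fin n, (y i t.succ - y i t.castSucc) *
        (cut c (fun k => initial t.val ((((σ i).trans (σ j).symm)).symm k)) : ℝ) := by
      intro j
      rw [← pair_eq c (y i) (hmono i) ((σ i).trans (σ j).symm), ← Equiv.sum_comp (σ i)]
      refine sum_congr rfl fun k _ => ?_
      rw [← Equiv.sum_comp (σ i)]
      rfl
    rw [sum_congr rfl (fun j _ => e2 j), sum_comm]
    refine sum_congr rfl fun t _ => ?_
    push_cast
    rw [mul_sum]
  have h3 : 0 ≤ Tot := by
    rw [h2]
    refine sum_nonneg fun i _ => sum_nonneg fun t _ => mul_nonneg ?_ ?_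
    · exact sub_nonneg.mpr (hmono i (Fin.castSucc_le_succ t))
    · have h4 : (0 : ℤ) ≤ ∑ j, cut c (fun k => initial t.val ((((σ i).trans (σ j).symm)).symm k)) := by
        rw [← add_sum_erase univ _ (mem_univ i)]
        have h5 : cut c (fun k => initial t.val ((((σ i).trans (σ i).symm)).symm k)) =
            cut c (initial t.val) := by
          congr 1
          funext k
          simp
        have h6 : ((d : ℤ) - 1) * z (t.val + 1) ≤ ∑ j ∈ univ.erase i,
            cut c (fun k => initial t.val ((((σ i).trans (σ j).symm)).symm k)) := by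
          have h7 : ∀ j ∈ univ.erase i, z (t.val + 1) ≤
              cut c (fun k => initial t.val ((((σ i).trans (σ j).symm)).symm k)) := by
            intro j _
            have := hcut (fun k => initial t.val ((((σ i).trans (σ j).symm)).symm k))
            rwa [side_initial] at this
          have h8 := card_nsmul_le_sum _ _ _ h7
          rw [card_erase_of_mem (mem_univ i), card_univ, Fintype.card_fin, nsmul_eq_mul,
            Nat.cast_sub (by omega)] at h8
          simpa using h8
        rw [h5]
        linarith [hinit t]
      exact_mod_cast h4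
  have hd' : (0 : ℝ) < d := by exact_mod_cast hd
  have hn : ((∑ k, ∑ l, (if k = l then 0 else c k l) : ℤ) : ℝ) < 0 := by exact_mod_cast hneg
  rw [h1] at h3
  nlinarith

end Pool.Agent.H75.Kus
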