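import Mathlib

set_option autoImplicit false

namespace Pool.Agent.H75.Kus

open Matrix Module

variable {ι Ω : Type} [Fintype ι] [Fintype Ω]

/-- Perturbation step: if the rank of `B + ε C` never exceeds the rank of `B`, then `C` maps the
kernel of `B` into the range of `B`. -/
theorem ker_step (B C : Matrix ι Ω ℝ) (hmax : ∀ e : ℝ, (B + e • C).rank ≤ B.rank)
    (v : Ω → ℝ) (hv : B *ᵥ v = 0) : ∃ w, C *ᵥ v = B *ᵥ w := by
  by_contra hcon
  push Not at hcon
  set R := LinearMap.range B.mulVecLin with hR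
  have hnot : C *ᵥ v ∉ R := by
    rintro ⟨w, hw⟩
    exact hcon w (by simpa using hw.symm)
  let r := finrank ℝ R
  let b : Basis (Fin r) ℝ R := finBasis ℝ R
  have hpre : ∀ j, ∃ e : Ω → ℝ, B *ᵥ e = (b j : ι → ℝ) := by
    intro j
    obtain ⟨e, he⟩ := (b j).2
    exact ⟨e, by simpa using he⟩
  choose e he using hpre
  let F : ℝ → (Fin (r + 1) → (ι → ℝ)) := fun t => Fin.cons (C *ᵥ v) (fun j => (B + t • C) *ᵥ e j)
  have hF0 : LinearIndependent ℝ (F 0) := by
    rw [linearIndependent_finCons]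
    have h1 : (fun j => (B + (0 : ℝ) • C) *ᵥ e j) = fun j => (b j : ι → ℝ) := by
      funext j
      simp [he]
    rw [h1]
    have hli : LinearIndependent ℝ (fun j => (b j : ι → ℝ)) :=
      b.linearIndependent.map' R.subtype (Submodule.ker_subtype R)
    refine ⟨hli, fun hmem => hnot ?_⟩
    refine (Submodule.span_le.2 ?_) hmem
    rintro _ ⟨j, rfl⟩
    exact (b j).2
  have hcont : Continuous F := by
    refine continuous_pi fun j => ?_
    refine Fin.cases ?_ (fun j => ?_) j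
    · simpa [F] using continuous_const
    · have : (fun t => F t j.succ) = fun t : ℝ => B *ᵥ e j + t • (C *ᵥ e j) := by
        funext t
        simp [F, Matrix.add_mulVec, Matrix.smul_mulVec]
      rw [this]
      fun_prop
  have hopen : IsOpen {t : ℝ | LinearIndependent ℝ (F t)} :=
    (isOpen_setOfPred_linearIndependent (𝕜 := ℝ)).preimage hcont
  obtain ⟨δ, hδ, hball⟩ := Metric.isOpen_iff.1 hopen 0 hF0
  have ht : LinearIndependent ℝ (F (δ / 2)) := by
    apply hball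
    rw [Metric.mem_ball, Real.dist_eq, sub_zero, abs_of_pos (by linarith)]
    linarith
  have hne : δ / 2 ≠ 0 := by positivity
  set D := B + (δ / 2) • C with hD
  have hrange : ∀ j, F (δ / 2) j ∈ LinearMap.range D.mulVecLin := by
    intro j
    refine Fin.cases ?_ (fun j => ?_) j
    · refine ⟨(δ / 2)⁻¹ • v, ?_⟩
      simp only [F, Fin.cons_zero, Matrix.mulVecLin_apply, hD, Matrix.add_mulVec,
        Matrix.mulVec_smul, Matrix.smul_mulVec, hv, zero_add, smul_smul]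
      rw [inv_mul_cancel₀ hne, one_smul]
    · exact ⟨e j, by simp only [F, hD, Fin.cons_succ, Matrix.mulVecLin_apply]⟩
  have hcard : r + 1 ≤ finrank ℝ (LinearMap.range D.mulVecLin) := by
    have hli : LinearIndependent ℝ
        (fun j => (⟨F (δ / 2) j, hrange j⟩ : LinearMap.range D.mulVecLin)) := by
      apply LinearIndependent.of_comp (LinearMap.range D.mulVecLin).subtype
      exact ht
    simpa using hli.fintype_card_le_finrank
  have := hmax (δ / 2)
  have h2 : D.rank ≤ r := by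
    have : D.rank ≤ B.rank := hmax (δ / 2)
    exact this
  have h3 : D.rank = finrank ℝ (LinearMap.range D.mulVecLin) := rfl
  omega

/-- If `P` is symmetric, every vector is `P u` plus an element of the kernel. -/
theorem sym_decomp (P : Matrix ι ι ℝ) (hP : Pᵀ = P) (w : ι → ℝ) :
    ∃ u : ι → ℝ, P *ᵥ (w - P *ᵥ u) = 0 := by
  have hker : LinearMap.ker (P.mulVecLin ∘ₗ P.mulVecLin) = LinearMap.ker P.mulVecLin := by
    ext x
    simp only [LinearMap.mem_ker, LinearMap.comp_apply, Matrix.mulVecLin_apply]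
    constructor
    · intro h
      have h1 : (P *ᵥ x) ⬝ᵥ (P *ᵥ x) = 0 := by
        have : (P *ᵥ x) ⬝ᵥ (P *ᵥ x) = x ⬝ᵥ (P *ᵥ (P *ᵥ x)) := by
          conv_rhs => rw [Matrix.dotProduct_mulVec, ← Matrix.mulVec_transpose, hP]
        rw [this, h, dotProduct_zero]
      exact dotProduct_self_eq_zero.1 h1
    · intro h
      rw [h, Matrix.mulVec_zero]
  have hrange : LinearMap.range (P.mulVecLin ∘ₗ P.mulVecLin) = LinearMap.range P.mulVecLin := by
    apply Submodule.eq_of_le_of_finrank_eq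
    · exact LinearMap.range_comp_le_range _ _
    · have h1 := LinearMap.finrank_range_add_finrank_ker (P.mulVecLin ∘ₗ P.mulVecLin)
      have h2 := LinearMap.finrank_range_add_finrank_ker P.mulVecLin
      rw [hker] at h1
      omega
  have hw : P *ᵥ w ∈ LinearMap.range (P.mulVecLin ∘ₗ P.mulVecLin) := by
    rw [hrange]
    exact ⟨w, by simp⟩
  obtain ⟨u, hu⟩ := hw
  refine ⟨u, ?_⟩
  simp only [LinearMap.comp_apply, Matrix.mulVecLin_apply] at hu
  rw [Matrix.mulVec_sub, hu, sub_self]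

theorem range_step (B C : Matrix ι Ω ℝ) (hmax : ∀ e : ℝ, (B + e • C).rank ≤ B.rank)
    (hcomm : (B * Bᵀ) * (C * Bᵀ) = (C * Bᵀ) * (B * Bᵀ)) (v : Ω → ℝ) :
    ∃ w, C *ᵥ v = B *ᵥ w := by
  -- decompose `v = Bᵀ w + v₀` with `B v₀ = 0`
  have hr : LinearMap.range (B * Bᵀ).mulVecLin = LinearMap.range B.mulVecLin := by
    apply Submodule.eq_of_le_of_finrank_eq
    · rintro _ ⟨x, rfl⟩
      exact ⟨Bᵀ *ᵥ x, by
        rw [Matrix.mulVecLin_apply, Matrix.mulVecLin_apply, Matrix.mulVec_mulVec]⟩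
    · exact Matrix.rank_self_mul_transpose B
  have hBv : B *ᵥ v ∈ LinearMap.range (B * Bᵀ).mulVecLin := by
    rw [hr]
    exact ⟨v, by simp⟩
  obtain ⟨w, hw⟩ := hBv
  rw [Matrix.mulVecLin_apply] at hw
  have hv0 : B *ᵥ (v - Bᵀ *ᵥ w) = 0 := by
    rw [Matrix.mulVec_sub, Matrix.mulVec_mulVec, hw, sub_self]
  obtain ⟨w₁, hw₁⟩ := ker_step B C hmax _ hv0
  -- the part `C Bᵀ w`
  have hsym : (B * Bᵀ)ᵀ = B * Bᵀ := by
    rw [Matrix.transpose_mul, Matrix.transpose_transpose]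
  obtain ⟨u, hu⟩ := sym_decomp (B * Bᵀ) hsym w
  have hu' : Bᵀ *ᵥ (w - (B * Bᵀ) *ᵥ u) = 0 := by
    set y := w - (B * Bᵀ) *ᵥ u with hy
    have h1 : (Bᵀ *ᵥ y) ⬝ᵥ (Bᵀ *ᵥ y) = 0 := by
      have : (Bᵀ *ᵥ y) ⬝ᵥ (Bᵀ *ᵥ y) = y ⬝ᵥ ((B * Bᵀ) *ᵥ y) := by
        rw [← Matrix.mulVec_mulVec, Matrix.dotProduct_mulVec y B, Matrix.mulVec_transpose]
      rw [this, hu, dotProduct_zero]
    exact dotProduct_self_eq_zero.1 h1
  have h2 : C *ᵥ (Bᵀ *ᵥ w) = B *ᵥ (Bᵀ *ᵥ ((C * Bᵀ) *ᵥ u)) := by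
    have h3 : Bᵀ *ᵥ w = Bᵀ *ᵥ ((B * Bᵀ) *ᵥ u) := by
      have := hu'
      rw [Matrix.mulVec_sub, sub_eq_zero] at this
      exact this
    rw [h3, Matrix.mulVec_mulVec, Matrix.mulVec_mulVec, ← hcomm, Matrix.mulVec_mulVec,
      Matrix.mulVec_mulVec]
  refine ⟨Bᵀ *ᵥ ((C * Bᵀ) *ᵥ u) + w₁, ?_⟩
  rw [Matrix.mulVec_add, ← h2, ← hw₁, ← Matrix.mulVec_add]
  congr 1
  abel

end Pool.Agent.H75.Kus
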